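import Pool.Agent.H15CM.Left

set_option autoImplicit false

/-!
# MP_811a2c_al, Q1: answer YES
-/

namespace Pool.Agent.Results.MP_811a2c_al.RightNotLeft

open Pool.Agent.H15CM

/-- There are monoids `M`, `T` such that `𝒮(M)` is non-coherent, `T` contains `𝒮(M)` as a
subsemigroup, and `T` is left coherent or right coherent. In fact for the infinite right zero
semigroup with identity `M = RZ`, the monoid `T = 𝒮(M)` itself is right coherent but not left
coherent. -/
theorem result :
    (RightCoherent (SM RZ) ∧ ¬ LeftCoherent (SM RZ)) ∧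
      ∃ (M T : Type) (_ : Monoid M) (_ : Monoid T),
        ¬ (RightCoherent (SM M) ∧ LeftCoherent (SM M)) ∧
        (∃ f : SM M →ₙ* T, Function.Injective f) ∧
        (LeftCoherent T ∨ RightCoherent T) := by
  have h1 : RightCoherent (SM RZ) := rightCoherent_of_RZL RZ_RZL ⟨RZ.z 0, by intro h; cases h⟩
  have h2 : ¬ LeftCoherent (SM RZ) := not_leftCoherent RZ_RZL
  exact ⟨⟨h1, h2⟩, RZ, SM RZ, inferInstance, inferInstance, fun h => h2 h.2,
    ⟨MulHom.id _, fun a b h => h⟩, Or.inr h1⟩

end Pool.Agent.Results.MP_811a2c_al.RightNotLeft
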